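import Mathlib

/-!
# A diagonally symmetric polynomial whose polarization module is not `h`-positive
-/

namespace Pool.Agent.Results.MP_55095a_co.NotHPositive

open MvPolynomial

/-- The ring `R = ℂ[x_{ij} : i ∈ Fin ℓ, j ∈ Fin n]`. -/
abbrev R (ℓ n : ℕ) := MvPolynomial (Fin ℓ × Fin n) ℂ

/-- The graded piece `R_d`: all monomials have multidegree `d`. -/
def Rd (ℓ n : ℕ) (d : Fin ℓ → ℕ) : Submodule ℂ (R ℓ n) where
  carrier := {g | ∀ s, (∃ i, ∑ j, s (i, j) ≠ d i) → coeff s g = 0}
  add_mem' := by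
    intro a b ha hb s hs
    rw [coeff_add, ha s hs, hb s hs, add_zero]
  zero_mem' := by
    intro s _
    exact coeff_zero s
  smul_mem' := by
    intro c a ha s hs
    rw [coeff_smul, ha s hs, smul_zero]

/-- The action of a permutation of the columns. -/
noncomputable def act {ℓ n : ℕ} (σ : Equiv.Perm (Fin n)) (f : R ℓ n) : R ℓ n :=
  rename (fun v : Fin ℓ × Fin n => (v.1, σ v.2)) f

/-- `f` is diagonally symmetric. -/
def IsDiagSymm {ℓ n : ℕ} (f : R ℓ n) : Prop := ∀ σ : Equiv.Perm (Fin n), act σ f = f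

/-- The generalized polarization operator `E^{(p)}_{i,k} = ∑_j x_{ij} ∂_{kj}^p`. -/
noncomputable def polar {ℓ n : ℕ} (p : ℕ) (i k : Fin ℓ) (g : R ℓ n) : R ℓ n :=
  ∑ j : Fin n, X (i, j) * (⇑(pderiv (R := ℂ) (k, j)))^[p] g

/-- A subspace is closed under all the operators `∂_{ij}` and `E^{(p)}_{i,k}`, `p ≥ 1`. -/
def IsClosed {ℓ n : ℕ} (W : Submodule ℂ (R ℓ n)) : Prop :=
  (∀ v : Fin ℓ × Fin n, ∀ g ∈ W, pderiv v g ∈ W) ∧
  (∀ p : ℕ, 1 ≤ p → ∀ i k : Fin ℓ, ∀ g ∈ W, polar p i k g ∈ W)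

/-- The polarization module `M_f`: the smallest subspace containing the orbit of `f` and closed
under all the operators. -/
noncomputable def polMod {ℓ n : ℕ} (f : R ℓ n) : Submodule ℂ (R ℓ n) :=
  sInf {W | (∀ σ : Equiv.Perm (Fin n), act σ f ∈ W) ∧ IsClosed W}

/-- The coefficient of `q^d` in the Hilbert series of `M_f`. -/
noncomputable def hilb {ℓ n : ℕ} (f : R ℓ n) (d : Fin ℓ → ℕ) : ℕ :=
  Module.finrank ℂ (polMod f ⊓ Rd ℓ n d : Submodule ℂ (R ℓ n))

/-- The Hilbert series of `M_f` is a nonnegative integer combination of the `h_μ(q)` with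
`|μ| ≤ deg f`. -/
def HPositive {ℓ n : ℕ} (f : R ℓ n) : Prop :=
  ∃ a : (k : ℕ) → Nat.Partition k → ℕ, ∀ d : Fin ℓ →₀ ℕ,
    (hilb f d : ℤ) = coeff d (∑ k ∈ Finset.range (f.totalDegree + 1), ∑ μ : Nat.Partition k,
      (C (a k μ : ℤ) * hsymmPart (Fin ℓ) ℤ μ))

/-! ### The bound for the polarization module -/

section

variable {ℓ n : ℕ}

/-- polynomials of degree at most `m` -/
def L (ℓ n m : ℕ) : Submodule ℂ (R ℓ n) where
  carrier := {g | ∀ s, m < s.degree → coeff s g = 0}
  add_mem' := by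
    intro a b ha hb s hs
    rw [coeff_add, ha s hs, hb s hs, add_zero]
  zero_mem' := by
    intro s _
    exact coeff_zero s
  smul_mem' := by
    intro c a ha s hs
    rw [coeff_smul, ha s hs, smul_zero]

theorem L_mono {m m' : ℕ} (h : m ≤ m') : L ℓ n m ≤ L ℓ n m' :=
  fun _ hg s hs => hg s (by omega)

theorem pderiv_mem {m : ℕ} {g : R ℓ n} (hg : g ∈ L ℓ n (m + 1)) (v : Fin ℓ × Fin n) :
    pderiv v g ∈ L ℓ n m := by
  intro s hs
  rw [coeff_pderiv, hg, zero_mul]
  rw [map_add, Finsupp.degree_single]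
  omega

theorem X_mul_mem {m : ℕ} {g : R ℓ n} (hg : g ∈ L ℓ n m) (v : Fin ℓ × Fin n) :
    X v * g ∈ L ℓ n (m + 1) := by
  classical
  intro s hs
  rw [coeff_X_mul']
  split_ifs with h
  · apply hg
    have h1 : 1 ≤ s v := by
      rw [Finsupp.mem_support_iff] at h
      omega
    have h2 : s = (s - Finsupp.single v 1) + Finsupp.single v 1 := by
      ext w
      simp only [Finsupp.add_apply, Finsupp.tsub_apply, Finsupp.single_apply]
      split_ifs with hw
      · subst hw; omega
      · omega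
    have h3 := congrArg Finsupp.degree h2
    rw [map_add, Finsupp.degree_single] at h3
    omega
  · rfl

theorem iterate_mem (p : ℕ) (hp : 2 ≤ p) {g : R ℓ n} (hg : g ∈ L ℓ n 3)
    (v : Fin ℓ × Fin n) : (⇑(pderiv (R := ℂ) v))^[p] g ∈ L ℓ n 1 := by
  induction p, hp using Nat.le_induction with
  | base => exact pderiv_mem (pderiv_mem hg v) v
  | succ p hp ih =>
    rw [Function.iterate_succ_apply']
    exact L_mono (by omega) (pderiv_mem (L_mono (by omega : 1 ≤ 0 + 1) ih) v)

theorem polar_mem_of_two_le (p : ℕ) (hp : 2 ≤ p) (i k : Fin ℓ) {g : R ℓ n}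
    (hg : g ∈ L ℓ n 3) : polar p i k g ∈ L ℓ n 2 :=
  Submodule.sum_mem _ fun _ _ => X_mul_mem (iterate_mem p hp hg _) _

theorem polar_one_mem (i k : Fin ℓ) {g : R ℓ n} (hg : g ∈ L ℓ n 2) :
    polar 1 i k g ∈ L ℓ n 2 :=
  Submodule.sum_mem _ fun _ _ => X_mul_mem (pderiv_mem hg _) _

theorem iterate_add (p : ℕ) (v : Fin ℓ × Fin n) (g h : R ℓ n) :
    (⇑(pderiv (R := ℂ) v))^[p] (g + h) =
      (⇑(pderiv (R := ℂ) v))^[p] g + (⇑(pderiv (R := ℂ) v))^[p] h := by
  induction p generalizing g h with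
  | zero => rfl
  | succ p ih => simp only [Function.iterate_succ_apply, map_add, ih]

theorem iterate_smul (p : ℕ) (v : Fin ℓ × Fin n) (c : ℂ) (g : R ℓ n) :
    (⇑(pderiv (R := ℂ) v))^[p] (c • g) = c • (⇑(pderiv (R := ℂ) v))^[p] g := by
  induction p generalizing g with
  | zero => rfl
  | succ p ih => simp only [Function.iterate_succ_apply, Derivation.map_smul, ih]

theorem polar_add (p : ℕ) (i k : Fin ℓ) (g h : R ℓ n) :
    polar p i k (g + h) = polar p i k g + polar p i k h := by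
  simp only [polar, iterate_add, mul_add, Finset.sum_add_distrib]

theorem polar_smul (p : ℕ) (i k : Fin ℓ) (c : ℂ) (g : R ℓ n) :
    polar p i k (c • g) = c • polar p i k g := by
  simp only [polar, iterate_smul, mul_smul_comm, Finset.smul_sum]

end

/-- The polynomial `f = (x₁ - x₂)(x₁ y₂ - x₂ y₁)`. -/
noncomputable def f : R 2 2 := (X (0, 0) - X (0, 1)) * (X (0, 0) * X (1, 1) - X (0, 1) * X (1, 0))

/-- The polynomial `f' = (y₁ - y₂)(x₁ y₂ - x₂ y₁)`. -/
noncomputable def f' : R 2 2 := (X (1, 0) - X (1, 1)) * (X (0, 0) * X (1, 1) - X (0, 1) * X (1, 0))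

theorem f_symm : IsDiagSymm f := by
  intro σ
  have h : σ = 1 ∨ σ = Equiv.swap 0 1 := by
    revert σ
    decide
  rcases h with rfl | rfl
  · exact rename_id_apply f
  · unfold act f
    simp
    ring

theorem polar_one (i k : Fin 2) (g : R 2 2) :
    polar 1 i k g = X (i, 0) * pderiv (k, 0) g + X (i, 1) * pderiv (k, 1) g := by
  simp [polar, Fin.sum_univ_two]

theorem ff_L3 : f ∈ L 2 2 3 ∧ f' ∈ L 2 2 3 := by
  have h1 : (1 : R 2 2) ∈ L 2 2 0 := by
    intro s hs
    rw [coeff_one, if_neg]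
    rintro rfl
    simp at hs
  have h2 : ∀ a b c : Fin 2 × Fin 2, (X a * (X b * (X c * 1)) : R 2 2) ∈ L 2 2 3 := fun a b c =>
    X_mul_mem (X_mul_mem (X_mul_mem h1 c) b) a
  constructor
  · have : f = X (0, 0) * (X (0, 0) * (X (1, 1) * 1)) - X (0, 0) * (X (0, 1) * (X (1, 0) * 1)) -
      X (0, 1) * (X (0, 0) * (X (1, 1) * 1)) + X (0, 1) * (X (0, 1) * (X (1, 0) * 1)) := by
      unfold f; ring
    rw [this]
    exact add_mem (sub_mem (sub_mem (h2 _ _ _) (h2 _ _ _)) (h2 _ _ _)) (h2 _ _ _)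
  · have : f' = X (1, 0) * (X (0, 0) * (X (1, 1) * 1)) - X (1, 0) * (X (0, 1) * (X (1, 0) * 1)) -
      X (1, 1) * (X (0, 0) * (X (1, 1) * 1)) + X (1, 1) * (X (0, 1) * (X (1, 0) * 1)) := by
      unfold f'; ring
    rw [this]
    exact add_mem (sub_mem (sub_mem (h2 _ _ _) (h2 _ _ _)) (h2 _ _ _)) (h2 _ _ _)

theorem X_mul_Rd {ℓ n : ℕ} (d : Fin ℓ → ℕ) (v : Fin ℓ × Fin n) (g : R ℓ n)
    (hg : g ∈ Rd ℓ n d) : X v * g ∈ Rd ℓ n (d + Pi.single v.1 1) := by
  classical
  rintro s ⟨i, hi⟩
  rw [coeff_X_mul']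
  split_ifs with h
  · apply hg
    refine ⟨i, fun heq => hi ?_⟩
    have h1 : 1 ≤ s v := by
      rw [Finsupp.mem_support_iff] at h
      omega
    rw [Pi.add_apply, ← heq, Pi.single_apply]
    by_cases hiv : i = v.1
    · subst hiv
      rw [if_pos rfl]
      have : ∀ j, s (v.1, j) = (s - Finsupp.single v 1 : Fin ℓ × Fin n →₀ ℕ) (v.1, j) +
          if j = v.2 then 1 else 0 := by
        intro j
        simp only [Finsupp.tsub_apply, Finsupp.single_apply]
        by_cases hj : j = v.2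
        · subst hj
          simp only [Prod.mk.eta, if_true]
          omega
        · rw [if_neg, if_neg hj]
          · omega
          · intro hv
            exact hj (congrArg Prod.snd hv).symm
      simp_rw [this, Finset.sum_add_distrib]
      simp
    · rw [if_neg hiv, add_zero]
      apply Finset.sum_congr rfl
      intro j _
      rw [Finsupp.tsub_apply, Finsupp.single_apply, if_neg]
      · rfl
      · intro hv
        exact hiv (congrArg Prod.fst hv).symm
  · rfl

theorem one_Rd {ℓ n : ℕ} : (1 : R ℓ n) ∈ Rd ℓ n 0 := by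
  rintro s ⟨i, hi⟩
  rw [coeff_one, if_neg]
  rintro rfl
  simp at hi

theorem three_Rd (a b c : Fin 2 × Fin 2) (d : Fin 2 → ℕ)
    (hd : 0 + Pi.single c.1 1 + Pi.single b.1 1 + Pi.single a.1 1 = d) :
    (X a * (X b * (X c * 1)) : R 2 2) ∈ Rd 2 2 d := by
  rw [← hd]
  exact X_mul_Rd _ _ _ (X_mul_Rd _ _ _ (X_mul_Rd _ _ _ one_Rd))

theorem f_Rd : f ∈ Rd 2 2 ![2, 1] := by
  have : f = X (0, 0) * (X (0, 0) * (X (1, 1) * 1)) - X (0, 0) * (X (0, 1) * (X (1, 0) * 1)) -
      X (0, 1) * (X (0, 0) * (X (1, 1) * 1)) + X (0, 1) * (X (0, 1) * (X (1, 0) * 1)) := by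
      unfold f; ring
  rw [this]
  exact add_mem (sub_mem (sub_mem (three_Rd _ _ _ _ (by decide)) (three_Rd _ _ _ _ (by decide)))
    (three_Rd _ _ _ _ (by decide))) (three_Rd _ _ _ _ (by decide))

theorem f'_Rd : f' ∈ Rd 2 2 ![1, 2] := by
  have : f' = X (1, 0) * (X (0, 0) * (X (1, 1) * 1)) - X (1, 0) * (X (0, 1) * (X (1, 0) * 1)) -
      X (1, 1) * (X (0, 0) * (X (1, 1) * 1)) + X (1, 1) * (X (0, 1) * (X (1, 0) * 1)) := by
      unfold f'; ring
  rw [this]
  exact add_mem (sub_mem (sub_mem (three_Rd _ _ _ _ (by decide)) (three_Rd _ _ _ _ (by decide)))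
    (three_Rd _ _ _ _ (by decide))) (three_Rd _ _ _ _ (by decide))

/-- The closed subspace spanned by `f`, `f'` and the polynomials of degree at most `2`. -/
noncomputable def V : Submodule ℂ (R 2 2) := Submodule.span ℂ {f, f'} ⊔ L 2 2 2

theorem polar_ff (i k : Fin 2) : polar 1 i k f ∈ Submodule.span ℂ {f, f'} ∧
    polar 1 i k f' ∈ Submodule.span ℂ {f, f'} := by
  have hf : f ∈ Submodule.span ℂ {f, f'} := Submodule.subset_span (by simp)
  have hf' : f' ∈ Submodule.span ℂ {f, f'} := Submodule.subset_span (by simp)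
  have e1 : polar 1 0 0 f = (2 : ℂ) • f := by
    rw [polar_one, smul_eq_C_mul, map_ofNat]
    simp [f, pderiv_X]
    ring
  have e2 : polar 1 0 1 f = 0 := by
    rw [polar_one]
    simp [f, pderiv_X]
    ring
  have e3 : polar 1 1 0 f = f' := by
    rw [polar_one]
    simp [f, f', pderiv_X]
    ring
  have e4 : polar 1 1 1 f = f := by
    rw [polar_one]
    simp [f, pderiv_X]
    ring
  have e5 : polar 1 0 0 f' = f' := by
    rw [polar_one]
    simp [f', pderiv_X]
    ring
  have e6 : polar 1 0 1 f' = f := by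
    rw [polar_one]
    simp [f, f', pderiv_X]
    ring
  have e7 : polar 1 1 0 f' = 0 := by
    rw [polar_one]
    simp [f', pderiv_X]
    ring
  have e8 : polar 1 1 1 f' = (2 : ℂ) • f' := by
    rw [polar_one, smul_eq_C_mul, map_ofNat]
    simp [f', pderiv_X]
    ring
  have key : ∀ i k : Fin 2, (i = 0 ∧ k = 0) ∨ (i = 0 ∧ k = 1) ∨ (i = 1 ∧ k = 0) ∨
      (i = 1 ∧ k = 1) := by decide
  rcases key i k with ⟨rfl, rfl⟩ | ⟨rfl, rfl⟩ | ⟨rfl, rfl⟩ | ⟨rfl, rfl⟩
  · rw [e1, e5]; exact ⟨Submodule.smul_mem _ _ hf, hf'⟩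
  · rw [e2, e6]; exact ⟨Submodule.zero_mem _, hf⟩
  · rw [e3, e7]; exact ⟨hf', Submodule.zero_mem _⟩
  · rw [e4, e8]; exact ⟨hf, Submodule.smul_mem _ _ hf'⟩

theorem V_closed : IsClosed V := by
  constructor
  · intro v g hg
    obtain ⟨u, hu, w, hw, rfl⟩ := Submodule.mem_sup.1 hg
    obtain ⟨a, b, rfl⟩ := Submodule.mem_span_pair.1 hu
    rw [map_add, map_add, Derivation.map_smul, Derivation.map_smul]
    apply Submodule.mem_sup_right
    exact add_mem (add_mem (Submodule.smul_mem _ _ (pderiv_mem ff_L3.1 v))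
      (Submodule.smul_mem _ _ (pderiv_mem ff_L3.2 v)))
      (L_mono (by omega) (pderiv_mem (m := 1) hw v))
  · intro p hp i k g hg
    obtain ⟨u, hu, w, hw, rfl⟩ := Submodule.mem_sup.1 hg
    obtain ⟨a, b, rfl⟩ := Submodule.mem_span_pair.1 hu
    rw [polar_add, polar_add, polar_smul, polar_smul]
    rcases Nat.lt_or_ge 1 p with hp2 | hp1
    · apply Submodule.mem_sup_right
      exact add_mem (add_mem (Submodule.smul_mem _ _ (polar_mem_of_two_le p hp2 i k ff_L3.1))
        (Submodule.smul_mem _ _ (polar_mem_of_two_le p hp2 i k ff_L3.2)))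
        (polar_mem_of_two_le p hp2 i k (L_mono (by omega) hw))
    · obtain rfl : p = 1 := by omega
      exact Submodule.add_mem_sup (add_mem (Submodule.smul_mem _ _ (polar_ff i k).1)
        (Submodule.smul_mem _ _ (polar_ff i k).2)) (polar_one_mem i k hw)

theorem polMod_le : polMod f ≤ V := by
  apply sInf_le
  refine ⟨fun σ => ?_, V_closed⟩
  rw [f_symm σ]
  exact Submodule.mem_sup_left (Submodule.subset_span (by simp))

theorem f_mem : f ∈ polMod f := by
  unfold polMod
  rw [Submodule.mem_sInf]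
  rintro W ⟨h1, -⟩
  have := h1 1
  rwa [f_symm 1] at this

theorem degree_eq (s : Fin 2 × Fin 2 →₀ ℕ) : s.degree = ∑ i, ∑ j, s (i, j) := by
  rw [Finsupp.degree_eq_sum, Fintype.sum_prod_type]

theorem hilb_30 : hilb f ![3, 0] = 0 := by
  unfold hilb
  have : polMod f ⊓ Rd 2 2 ![3, 0] = ⊥ := by
    rw [eq_bot_iff]
    rintro g ⟨hg1, hg2⟩
    rw [Submodule.mem_bot]
    obtain ⟨u, hu, w, hw, rfl⟩ := Submodule.mem_sup.1 (polMod_le hg1)
    obtain ⟨a, b, rfl⟩ := Submodule.mem_span_pair.1 hu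
    ext s
    rw [coeff_zero]
    by_cases hs : ∃ i, ∑ j, s (i, j) ≠ (![3, 0] : Fin 2 → ℕ) i
    · exact hg2 s hs
    · push Not at hs
      have h0 := hs 0
      have h1 := hs 1
      simp only [Matrix.cons_val_zero, Matrix.cons_val_one] at h0 h1
      rw [coeff_add, coeff_add, coeff_smul, coeff_smul, f_Rd s ⟨0, by rw [h0]; decide⟩,
        f'_Rd s ⟨0, by rw [h0]; decide⟩, hw s (by rw [degree_eq, Fin.sum_univ_two, h0, h1]; decide)]
      simp
  rw [this]
  exact finrank_bot ℂ _

theorem f_ne_zero : f ≠ 0 := by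
  intro h
  have := congrArg (MvPolynomial.eval (fun v : Fin 2 × Fin 2 =>
    if v = (0, 0) then (1 : ℂ) else if v = (1, 1) then 1 else 0)) h
  simp [f] at this

theorem hilb_21 : hilb f ![2, 1] ≠ 0 := by
  unfold hilb
  have hle : polMod f ⊓ Rd 2 2 ![2, 1] ≤ restrictTotalDegree (Fin 2 × Fin 2) ℂ 3 := by
    rintro g ⟨-, hg⟩
    rw [mem_restrictTotalDegree, totalDegree, Finset.sup_le_iff]
    intro s hs
    rw [mem_support_iff] at hs
    by_contra hlt
    apply hs
    apply hg
    by_contra hcon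
    push Not at hcon
    have h0 := hcon 0
    have h1 := hcon 1
    simp only [Matrix.cons_val_zero, Matrix.cons_val_one] at h0 h1
    apply hlt
    have h3 : s.degree = 3 := by rw [degree_eq, Fin.sum_univ_two, h0, h1]
    exact h3.le
  have : FiniteDimensional ℂ (polMod f ⊓ Rd 2 2 ![2, 1] : Submodule ℂ (R 2 2)) :=
    Submodule.finiteDimensional_of_le hle
  intro h0
  rw [Submodule.finrank_eq_zero] at h0
  have : f ∈ polMod f ⊓ Rd 2 2 ![2, 1] := ⟨f_mem, f_Rd⟩
  rw [h0, Submodule.mem_bot] at this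
  exact f_ne_zero this

/-! ### The `h_μ` -/

theorem homog_aux (s : Multiset (Fin 2)) :
    (s.map (X : Fin 2 → MvPolynomial (Fin 2) ℤ)).prod.IsHomogeneous s.card := by
  induction s using Multiset.induction_on with
  | empty => simpa using isHomogeneous_one (Fin 2) ℤ
  | cons a s ih =>
    rw [Multiset.map_cons, Multiset.prod_cons, Multiset.card_cons, add_comm]
    exact (isHomogeneous_X ℤ a).mul ih

theorem hsymm_homog (k : ℕ) : (hsymm (Fin 2) ℤ k).IsHomogeneous k := by
  unfold hsymm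
  apply IsHomogeneous.sum
  intro s _
  have := homog_aux s.1
  rwa [s.2] at this

theorem parts_homog (s : Multiset ℕ) : (s.map (hsymm (Fin 2) ℤ)).prod.IsHomogeneous s.sum := by
  induction s using Multiset.induction_on with
  | empty => simpa using isHomogeneous_one (Fin 2) ℤ
  | cons a s ih =>
    rw [Multiset.map_cons, Multiset.prod_cons, Multiset.sum_cons]
    exact (hsymm_homog a).mul ih

theorem hsymmPart_homog {k : ℕ} (μ : Nat.Partition k) :
    (hsymmPart (Fin 2) ℤ μ).IsHomogeneous k := by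
  have := parts_homog μ.parts
  rwa [μ.parts_sum] at this

/-- Substituting `q₁ = t`, `q₂ = 0`. -/
noncomputable def sub : MvPolynomial (Fin 2) ℤ →ₐ[ℤ] Polynomial ℤ := aeval ![Polynomial.X, 0]

theorem sub_coeff (Q : MvPolynomial (Fin 2) ℤ) (k : ℕ) (d : Fin 2 →₀ ℕ) (hd : d 0 = k)
    (hd1 : d 1 = 0) : (sub Q).coeff k = coeff d Q := by
  induction Q using MvPolynomial.induction_on' with
  | add p q hp hq => rw [map_add, Polynomial.coeff_add, hp, hq, coeff_add]
  | monomial u a =>
    unfold sub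
    rw [aeval_monomial, Finsupp.prod_fintype _ _ (by simp), Fin.prod_univ_two, coeff_monomial]
    simp only [Matrix.cons_val_zero, Matrix.cons_val_one, eq_intCast]
    by_cases h1 : u 1 = 0
    · rw [h1, pow_zero, mul_one, ← Polynomial.C_eq_intCast, Polynomial.coeff_C_mul_X_pow]
      congr 1
      rw [eq_iff_iff]
      constructor
      · intro h
        ext i
        fin_cases i
        · simp; omega
        · simp; omega
      · rintro rfl
        exact hd.symm
    · rw [zero_pow h1, mul_zero, mul_zero, Polynomial.coeff_zero, if_neg]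
      rintro rfl
      exact h1 hd1

theorem sub_hsymm (k : ℕ) : sub (hsymm (Fin 2) ℤ k) = Polynomial.X ^ k := by
  unfold hsymm
  rw [map_sum, Finset.sum_eq_single (Sym.replicate k 0)]
  · rw [map_multiset_prod, Multiset.map_map]
    simp [sub, Sym.replicate]
  · intro s _ hs
    rw [map_multiset_prod, Multiset.map_map]
    apply Multiset.prod_eq_zero
    rw [Multiset.mem_map]
    refine ⟨1, ?_, by simp [sub]⟩
    by_contra hcon
    apply hs
    rw [Sym.eq_replicate]
    intro b hb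
    fin_cases b
    · rfl
    · exact absurd hb hcon
  · intro h
    exact absurd (Finset.mem_univ _) h

theorem sub_parts (s : Multiset ℕ) : sub (s.map (hsymm (Fin 2) ℤ)).prod = Polynomial.X ^ s.sum := by
  induction s using Multiset.induction_on with
  | empty => simp
  | cons a s ih => rw [Multiset.map_cons, Multiset.prod_cons, Multiset.sum_cons, map_mul, ih,
      sub_hsymm, pow_add]

theorem sub_hsymmPart {k : ℕ} (μ : Nat.Partition k) :
    sub (hsymmPart (Fin 2) ℤ μ) = Polynomial.X ^ k := by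
  have := sub_parts μ.parts
  rwa [μ.parts_sum] at this

theorem not_hPositive : ¬ HPositive f := by
  rintro ⟨a, ha⟩
  generalize f.totalDegree + 1 = D at ha
  have h1 := ha (Finsupp.single 0 3)
  have e1 : (⇑(Finsupp.single (0 : Fin 2) 3) : Fin 2 → ℕ) = ![3, 0] := by
    funext i; fin_cases i <;> simp
  rw [e1, hilb_30, ← sub_coeff _ 3 _ (by simp) (by simp), map_sum, Polynomial.finsetSum_coeff] at h1
  simp only [map_sum, map_mul, sub_hsymmPart, Polynomial.finsetSum_coeff] at h1
  have hC : ∀ z : ℤ, sub (C z) = Polynomial.C z := by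
    intro z
    simp [sub]
  simp only [hC, Polynomial.coeff_C_mul_X_pow] at h1
  by_cases hD : 3 < D
  · rw [Finset.sum_eq_single 3] at h1
    · simp only [if_true] at h1
      have h2 : ∀ μ : Nat.Partition 3, a 3 μ = 0 := by
        intro μ
        have h3 : ∑ μ : Nat.Partition 3, a 3 μ = 0 := by exact_mod_cast h1.symm
        rw [Finset.sum_eq_zero_iff] at h3
        exact h3 μ (Finset.mem_univ _)
      have h4 := ha (Finsupp.single 0 2 + Finsupp.single 1 1)
      have e2 : (⇑(Finsupp.single (0 : Fin 2) 2 + Finsupp.single 1 1 : Fin 2 →₀ ℕ) : Fin 2 → ℕ) = ![2, 1] := by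
        funext i; fin_cases i <;> simp
      rw [e2, coeff_sum, Finset.sum_eq_zero] at h4
      · exact hilb_21 (by exact_mod_cast h4)
      · intro k hk
        rw [coeff_sum]
        apply Finset.sum_eq_zero
        intro μ _
        rw [coeff_C_mul]
        by_cases hk3 : k = 3
        · subst hk3
          rw [h2 μ]
          simp
        · rw [(hsymmPart_homog μ).coeff_eq_zero, mul_zero]
          rw [map_add, Finsupp.degree_single, Finsupp.degree_single]
          omega
    · intro k _ hk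
      apply Finset.sum_eq_zero
      intro μ _
      rw [if_neg (by omega)]
    · intro h
      exact absurd (Finset.mem_range.2 hD) h
  · have h4 := ha (Finsupp.single 0 2 + Finsupp.single 1 1)
    have e2 : (⇑(Finsupp.single (0 : Fin 2) 2 + Finsupp.single 1 1 : Fin 2 →₀ ℕ) : Fin 2 → ℕ) = ![2, 1] := by
      funext i; fin_cases i <;> simp
    rw [e2, coeff_sum, Finset.sum_eq_zero] at h4
    · exact hilb_21 (by exact_mod_cast h4)
    · intro k hk
      rw [coeff_sum]
      apply Finset.sum_eq_zero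
      intro μ _
      rw [coeff_C_mul]
      rw [(hsymmPart_homog μ).coeff_eq_zero, mul_zero]
      rw [Finset.mem_range] at hk
      rw [map_add, Finsupp.degree_single, Finsupp.degree_single]
      omega

/-- **Theorem.** There are `ℓ, n ≥ 1` and a homogeneous diagonally symmetric polynomial `f` for
which the Hilbert series of the polarization module `M_f` is not `h`-positive. -/
theorem result : ∃ ℓ n : ℕ, 1 ≤ ℓ ∧ 1 ≤ n ∧ ∃ f : R ℓ n, f ≠ 0 ∧ (∃ d, f ∈ Rd ℓ n d) ∧
    IsDiagSymm f ∧ ¬ HPositive f :=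
  ⟨2, 2, by norm_num, by norm_num, f, f_ne_zero, ⟨_, f_Rd⟩, f_symm, not_hPositive⟩

end Pool.Agent.Results.MP_55095a_co.NotHPositive
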